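import Pool.Agent.H77.Z4.Gd
import Pool.Agent.H77.Z4.Zin
import Pool.Agent.H82.ZC.Psz

/-!
# The labels of the target in the zooms, for the requirements of the two cases

`psi1_A`, `psi1_B`: the input (Psi1) of `zin` over the requirements `GdA` and `GdB`.
-/

set_option autoImplicit false

namespace Pool.ZFI

open Finset (range)
open Pool.Agent.H49.Ent Pool.Agent.H32.Dense Pool.STK Pool.KA Pool.KSAT Pool.K2S Pool.PB Pool.S6C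
open Pool.GEN Pool.ONE Pool.EXW Pool.TOP Pool.ZCL Pool.ZLC Pool.ZFN Pool.ZCO Pool.PKG Pool.CHT
open Pool.Z4
open Pool.ZFW (PsR PsF)

variable {n : ℕ} {hn : 2 ≤ n} {S : PCl n} {P : ℝ → ℝ → ℝ} {r : ℝ → ℝ}
  {P' : ℕ → List (Fin n) × Fin n → ℝ → ℝ → ℝ} {Λ : Finset (Fin n) → Fin n → ℝ → ℝ → ℝ}

/-- The numbers of the two forms. -/
theorem num_of {w₁ x y D : ℝ} (h1 : w₁ < 1) (h : D < nmz w₁ x y) :
    x + w₁ + D * (1 - w₁) < y := by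
  unfold nmz at h
  rw [lt_div_iff₀ (by linarith)] at h
  linarith

/-- **(Psi1) in the zooms, case A**, in the form of `zin`. -/
theorem psi1_A (H : Pk hn S P r P' Λ) (hTop : Pool.TOP.TopS n) (hF : FZX (n - 1)) {o : Od n}
    {l : ℕ} (hl : l < n - 1) {w₁ wb : ℝ} (hw0 : 0 < w₁) (hw1 : w₁ < 1) (hwb : wb ≤ 1)
    {M : MDat} {β : ℕ → ℝ → ℝ → ℝ} {Vd : Rq → Prop} :
    ∀ v : ℚ, 0 < v → rho w₁ v < wb → ∀ D : ℝ, 0 < D → D ≤ 1 →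
      (∀ h : ℝ, 0 < h → ∃ w ∈ Gs P r P' Λ o, w < rho w₁ v ∧
        D - h < nmz w₁ 0 (LL hn P P' o (l + 1) w w)) → ∀ h : ℝ, 0 < h →
      ∃ K : ℕ, ∀ τ : ℝ, 0 < τ → ∃ q : {R : DtP n // GdA hn o.1.1 hl M w₁ β Vd R},
        ZPr S w₁ (ez hn o.1.1 l) q.1 (fun J G A =>
        ∃ B : G.Ω → Prop, Sub B A ∧ Real.exp (-(τ * J)) * Pe G.p A ≤ Pe G.p B ∧
        (tgs (lst hn)).T () K ⌊(v : ℝ) * J⌋₊ ⌊(v : ℝ) * J⌋₊ ⌊(D - h) * J⌋₊ J G B) := by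
  intro v hv hvb D hD0 hD1 hD h hh
  have h01 : 0 < 1 - w₁ := by linarith
  have hv0 : (0 : ℝ) < v := by exact_mod_cast hv
  have hv1 : (v : ℝ) ≤ 1 := by
    by_contra hcon
    push Not at hcon
    have h3 := mul_lt_mul_of_pos_left hcon h01
    unfold rho at hvb
    linarith
  obtain ⟨K, δ, hδ, h1⟩ := H.psi1 hTop hF hl hw0 hw1 hv0 hv1 le_rfl hD0 hD1 (fun h' hh' => by
    obtain ⟨w, hw, h2, h3⟩ := hD h' hh'
    refine ⟨w, hw, ?_, num_of hw1 h3⟩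
    unfold rho at h2
    linarith) (ez hn o.1.1 l) (lst hn) (ezi hn o.1.1 hl.le) hh
  refine ⟨K, fun τ hτ => ?_⟩
  obtain ⟨h', hh', h2⟩ := h1 τ hτ
  exact ⟨⟨_, gdA_ps hn o.1.1 hh'⟩, h2⟩

/-- **(Psi1) in the zooms, case B**, in the form of `zin`. -/
theorem psi1_B (H : Pk hn S P r P' Λ) (hTop : Pool.TOP.TopS n) (hF : FZX (n - 1)) {o : Od n}
    {l : ℕ} (hl : l < n - 1) {w₁ wb xs : ℝ} (hw0 : 0 < w₁) (hw1 : w₁ < 1) (hwb : wb ≤ 1)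
    (hx : 0 ≤ xs) {M : MDat} {β : ℕ → ℝ → ℝ → ℝ} {Vd : Rq → Prop} :
    ∀ v : ℚ, 0 < v → rho w₁ v < wb → ∀ D : ℝ, 0 < D → D ≤ 1 →
      (∀ h : ℝ, 0 < h → ∃ w ∈ Gs P r P' Λ o, w < rho w₁ v ∧
        D - h < nmz w₁ xs (LL hn P P' o (l + 1) w w)) → ∀ h : ℝ, 0 < h →
      ∃ K : ℕ, ∀ τ : ℝ, 0 < τ → ∃ q : {R : DtP n // GdB hn o.1.1 hl M w₁ xs β Vd R},
        ZPr S w₁ (ez hn o.1.1 l) q.1 (fun J G A =>
        ∃ B : G.Ω → Prop, Sub B A ∧ Real.exp (-(τ * J)) * Pe G.p A ≤ Pe G.p B ∧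
        (tgs (lst hn)).T () K ⌊(v : ℝ) * J⌋₊ ⌊(v : ℝ) * J⌋₊ ⌊(D - h) * J⌋₊ J G B) := by
  intro v hv hvb D hD0 hD1 hD h hh
  have h01 : 0 < 1 - w₁ := by linarith
  have hv0 : (0 : ℝ) < v := by exact_mod_cast hv
  have hv1 : (v : ℝ) ≤ 1 := by
    by_contra hcon
    push Not at hcon
    have h3 := mul_lt_mul_of_pos_left hcon h01
    unfold rho at hvb
    linarith
  obtain ⟨K, δ, hδ, h1⟩ := H.psi1 hTop hF hl hw0 hw1 hv0 hv1 hx hD0 hD1 (fun h' hh' => by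
    obtain ⟨w, hw, h2, h3⟩ := hD h' hh'
    refine ⟨w, hw, ?_, num_of hw1 h3⟩
    unfold rho at h2
    linarith) (ez hn o.1.1 l) (lst hn) (ezi hn o.1.1 hl.le) hh
  refine ⟨K, fun τ hτ => ?_⟩
  obtain ⟨h', hh', h2⟩ := h1 τ hτ
  exact ⟨⟨_, gdB_ps hn o.1.1 hh' (by linarith)⟩, h2⟩

end Pool.ZFI
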