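import Pool.Agent.H82.ZF.Cn
import Pool.Agent.H39.GEN.Zme

/-!
# The slope of the target is small if the last rough coordinate is steep

`MevH`: the data on the events of the class, for almost all pairs of good windows near each window of
the sets `Eg`. `nore_cnt`: with these data, `S_N (1 - r') ≤ h₀ S_u` at almost all windows with a
configuration at which `l` is rough, `h₀` a bound of the deficits of the rough windows in the zooms.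
-/

set_option autoImplicit false

namespace Pool.ZFI

open MeasureTheory Set Filter Topology
open Finset (range)
open Pool.Agent.H49.Ent Pool.Agent.H32.Dense Pool.STK Pool.KA Pool.KSAT Pool.K2S Pool.PB Pool.S6C
open Pool.GEN Pool.ONE Pool.EXW Pool.TOP Pool.ZCL Pool.ZLC Pool.ZFN Pool.ZCO Pool.PKG Pool.CHT
open Pool.Z4 Pool.ZL
open Pool.LBT (ThrOf)
open Pool.LEV (Law)
open Pool.ALL (RateOf)

variable {n : ℕ}

/-- **The data on the events** for almost all pairs of good windows. -/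
def MevH (hn : 2 ≤ n) (S : PCl n) (P : ℝ → ℝ → ℝ) (r : ℝ → ℝ)
    (P' : ℕ → List (Fin n) × Fin n → ℝ → ℝ → ℝ) (Λ : Finset (Fin n) → Fin n → ℝ → ℝ → ℝ)
    (o : Od n) (l : ℕ) (C : ℝ) : Prop :=
  ∀ (gap : ℝ) (lam T : ℕ → ℝ) (rho : ℝ), Vs l n lam T gap → 0 < rho →
    ∀ g ∈ Gs P r P' Λ o ∩ Eg (LF hn P P' o) l n lam T (epg n C gap) rho,
    ∃ ϱ : ℝ, 0 < ϱ ∧ ∀ δ : ℚ, 0 < δ → ∀ᵐ w₁ : ℝ,
      w₁ ∈ Gs P r P' Λ o ∩ Eg (LF hn P P' o) l n lam T (epg n C gap) rho →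
      w₁ + δ ∈ Gs P r P' Λ o ∩ Eg (LF hn P P' o) l n lam T (epg n C gap) rho →
      g - ϱ < w₁ → w₁ < g → g < w₁ + δ → w₁ + δ < g + ϱ →
      ∃ a₀ w₀ b : ℝ, Bse (lam l) (Kg n gap) b a₀ w₀ w₁ ∧ w₀ < w₁ ∧ w₁ + δ < a₀ ∧
        a₀ - w₀ < rho ∧ ∃ (M : MDat) (Vd : Rq → Prop) (β : ℕ → ℝ → ℝ → ℝ) (E₁ : ℝ),
        (∀ i ≤ n - 1, β i = LF hn P P' o i) ∧ MOk n M Vd ∧
        (∀ w : ℝ, w = w₁ ∨ w = w₁ + δ → ∀ i ≤ n - 1, β i w w + M.E + 2 * M.ϱ ≤ 1) ∧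
        VdG w₁ δ M (fun a w => C * psi (LF hn P P' o) l n T a₀ w₀ b (Kg n gap) a w) Vd ∧
        0 ≤ E₁ ∧ E₁ ≤ M.E ∧ (∀ q, Vd q → q.w ≤ q.a ∧ q.a ≤ 1) ∧
        MEvt S M w₁ E₁ (cc hn o.1.1) (n - 1) l β Vd

variable {hn : 2 ≤ n} {S : PCl n} {P : ℝ → ℝ → ℝ} {r : ℝ → ℝ}
  {P' : ℕ → List (Fin n) × Fin n → ℝ → ℝ → ℝ} {Λ : Finset (Fin n) → Fin n → ℝ → ℝ → ℝ}
  {o : Od n}

/-- **The slope of the target** at the windows with a rough coordinate `l` whose slope in the window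
is larger than the ones of the coordinates above. -/
theorem nore_cnt (H : Pk hn S P r P' Λ) (hTop : Pool.TOP.TopS n) (hF1 : FZX 1)
    (hF : FZX (n - 1)) (hW : ∀ k, 2 ≤ k → k < n → RW k)
    {s : Fin n → ℝ} {d : ℕ → ℝ} {al : ℝ} {g₀ : ℝ → ℝ} {e₀ : ℝ} {K₀ : ℕ} {N : ℚ → ℚ → ℝ}
    (hal : 0 < al) (hg₀ : ∀ ε : ℝ, 0 < ε → 0 < g₀ ε) (hC : ClX s d al g₀ e₀ K₀ N S)
    {l : ℕ} (hl1 : 1 ≤ l) (hl : l < n - 1) {C : ℝ} (hC1 : 1 ≤ C)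
    (hMev : MevH hn S P r P' Λ o l C) {h₀ : ℝ} (hh0 : 0 ≤ h₀) (hh : h₀ < 1)
    (hM : ∀ w₁ ∈ Gs P r P' Λ o, ∀ (S' : PCl n) (P : ℝ → ℝ → ℝ) (r : ℝ → ℝ),
      ClX (fun _ => 0) (fun _ => 1) al
      (fun x => min (g₀ (x / 2)) 1) 2 0 (NZR S (cc hn o.1.1 0) (al + 1) w₁) S' →
      ThrOf (tgs (lst hn)) S' (fun _ => P) → RateOf S' (lst hn) r → ∀ E, RgFull P r h₀ E) :
    ∀ᵐ g : ℝ, g ∈ Gs P r P' Λ o → (∃ la t : ℕ → ℝ, Cfg hn P P' o l g la t ∧ la l = 1) →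
      deriv (fun v => P v v) g * (1 - deriv r (P g g)) ≤
        h₀ * deriv (fun v => LL hn P P' o (l + 1) v v) g := by
  have hmain := cnt H hTop hF hl hC1 hh0 hh (Φ := fun _ la _ => la l = 1) (o := o) ?_
  · filter_upwards [hmain] with g h1 hg hcf
    refine h1 hg hcf ?_
    obtain ⟨la, t, h2, h3⟩ := hcf
    have h4 := h2.t0
    rw [(aff_der (h2.aff l le_rfl (by omega))).deriv, h3]
    linarith
  · intro gap lam T rho V hrho g hg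
    obtain ⟨ϱ, hϱ, h1⟩ := hMev gap lam T rho V hrho g hg
    refine ⟨ϱ, hϱ, fun δ hδ => ?_⟩
    filter_upwards [h1 δ hδ, right_ae (Gs P r P' Λ o)] with w₁ h2 hR k1 k2 k3 k4 k5 k6
    obtain ⟨a₀, w₀, b, B, h01, hδa, har, M, Vd, β, E₁, hβ, hMO, hnum, hV, hE0, hE1, hVd, hME⟩ :=
      h2 k1 k2 k3 k4 k5 k6
    have Z := zwd_of H hl1 hl V hC1 hδ B hδa.le har k1.1 k1.2 k2.1 k2.2 (hR k1.1) hβ hMO hnum hV
    refine fun A s₀ hs₀ hA => cnt_A (P' := P') (Λ := Λ) (r := r) (o := o) (by omega) V hC1 hrho B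
      h01 hδa har (Ψ := fun A s₀ => ENNReal.ofReal ((1 - h₀) * s₀) *
        volume (A ∩ Ioo w₁ (w₁ + δ)) ≤
        ENNReal.ofReal (LF hn P P' o l (w₁ + δ) (w₁ + δ) - LF hn P P' o l w₁ w₁ -
          (P (w₁ + δ) (w₁ + δ) - P w₁ w₁ - (r (P (w₁ + δ) (w₁ + δ)) - r (P w₁ w₁)))))
      (fun A σ s₀ hs₀ hA => ?_) A s₀ hs₀ hA
    exact zw_mevt Z H hTop hF1 hF hW hal hg₀ hC hE0 hE1 hVd hME hs₀ hh.le hA (hM w₁ k1.1)

end Pool.ZFI
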