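import Pool.Agent.H82.ZF.Lg
import Pool.Agent.H77.Z4.Cnt
import Pool.Agent.H60.GEN.Ord

/-!
# The final count

`Cfg`: the configuration of an order at a window: the numbers of the coordinates from `l` on are
affine, and the slope of `l` in the window is the largest. `cnt`: if the inequality of the zooms holds
for almost all pairs of good windows near each good window with a configuration, then
`S_N (1 - r') ≤ h₀ S_u` at almost all such windows.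
-/

set_option autoImplicit false

namespace Pool.ZFI

open MeasureTheory Set Filter Topology
open Finset (range)
open Pool.Agent.H49.Ent Pool.Agent.H32.Dense Pool.STK Pool.KA Pool.KSAT Pool.K2S Pool.PB Pool.S6C
open Pool.GEN Pool.ONE Pool.EXW Pool.TOP Pool.ZCL Pool.ZLC Pool.ZFN Pool.ZCO Pool.PKG Pool.CHT
open Pool.Z4 Pool.ZL
open Pool.LEV (Law)
open Pool.ALL (RateOf)

/-- Points of a set which are not limits from the right are countable. -/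
theorem right_ae (G : Set ℝ) : ∀ᵐ x : ℝ, x ∈ G → ∀ ε : ℝ, 0 < ε → ∃ v ∈ G, x < v ∧ v < x + ε := by
  have h1 : ∀ᵐ x : ℝ, x ∉ {x ∈ G | 𝓝[G ∩ Ioi x] x = ⊥} :=
    Set.Countable.ae_notMem (countable_setOfPred_isolated_right_within) volume
  filter_upwards [h1] with x hx hG ε hε
  by_contra hcon
  push Not at hcon
  refine hx ⟨hG, ?_⟩
  rw [← Filter.empty_mem_iff_bot, mem_nhdsWithin]
  refine ⟨Iio (x + ε), isOpen_Iio, by simp [hε], ?_⟩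
  rintro v ⟨hv1, hv2, hv3⟩
  exact absurd hv1 (not_lt.2 (hcon v hv2 hv3))

variable {n : ℕ} {hn : 2 ≤ n} {S : PCl n} {P : ℝ → ℝ → ℝ} {r : ℝ → ℝ}
  {P' : ℕ → List (Fin n) × Fin n → ℝ → ℝ → ℝ} {Λ : Finset (Fin n) → Fin n → ℝ → ℝ → ℝ}
  {o : Od n}

/-- **The configuration** at the window `g`: slopes `la` in the radius and `t` in the window. -/
structure Cfg (hn : 2 ≤ n) (P : ℝ → ℝ → ℝ) (P' : ℕ → List (Fin n) × Fin n → ℝ → ℝ → ℝ)
    (o : Od n) (l : ℕ) (g : ℝ) (la t : ℕ → ℝ) : Prop where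
  aff : ∀ i, l ≤ i → i < n → AffA (LF hn P P' o i) g (la i) (t i)
  la1 : 1 ≤ la l
  t0 : 0 < t l
  ti : ∀ i, l < i → i < n → t i < t l

theorem LF_lst : LF hn P P' o (n - 1) = P := LL_lst

/-- The numbers at a good window are smaller than one. -/
theorem gs_lt (H : Pk hn S P r P' Λ) {g : ℝ} (hg : g ∈ Gs P r P' Λ o) {i : ℕ} (hi : i < n)
    (hTop : Pool.TOP.TopS n) (hF : FZX (n - 1)) : LF hn P P' o i g g < 1 := by
  obtain ⟨α, Q, c, Fc⟩ := H.fac hTop hF hg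
  have h5 := tht_pos o.2
  have h6 := Fc.thc
  rcases Nat.lt_or_ge i (n - 1) with h | h
  · have h1 := Fc.le i h g g Fc.g0 le_rfl Fc.gα
    unfold LF
    rw [LL_low (by omega) (by omega)]
    have e1 : i + 1 - 1 = i := by omega
    rw [e1]
    linarith
  · have : i = n - 1 := by omega
    rw [this, LF_lst]
    have h1 := Fc.PQ g g Fc.g0 le_rfl Fc.gα
    linarith [Fc.Q1]

/-- **The final count.** -/
theorem cnt (H : Pk hn S P r P' Λ) (hTop : Pool.TOP.TopS n) (hF : FZX (n - 1)) {l : ℕ}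
    (hl : l < n - 1) {C : ℝ} (hC : 1 ≤ C) {h₀ : ℝ} (hh0 : 0 ≤ h₀) (hh : h₀ < 1)
    {Φ : ℝ → (ℕ → ℝ) → (ℕ → ℝ) → Prop}
    (hI : ∀ (gap : ℝ) (lam T : ℕ → ℝ) (rho : ℝ), Vs l n lam T gap → 0 < rho →
      ∀ g ∈ Gs P r P' Λ o ∩ Eg (LF hn P P' o) l n lam T (epg n C gap) rho,
      ∃ ϱ : ℝ, 0 < ϱ ∧ ∀ δ : ℚ, 0 < δ → ∀ᵐ w₁ : ℝ,
        w₁ ∈ Gs P r P' Λ o ∩ Eg (LF hn P P' o) l n lam T (epg n C gap) rho →
        w₁ + δ ∈ Gs P r P' Λ o ∩ Eg (LF hn P P' o) l n lam T (epg n C gap) rho →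
        g - ϱ < w₁ → w₁ < g → g < w₁ + δ → w₁ + δ < g + ϱ →
        ∀ (A : Set ℝ) (s₀ : ℝ), 1 < s₀ →
        (∀ x ∈ A, x ∈ Eg (LF hn P P' o) l n lam T (epg n C gap) rho ∧
          x ∈ Gs P r P' Λ o ∧ Nogap (Gs P r P' Λ o) x ∧ LF hn P P' o l x x < 1 ∧
          s₀ ≤ deriv (fun v => LF hn P P' o l v v) x ∧
          ∃ la t : ℕ → ℝ, Cfg hn P P' o l x la t ∧ Φ x la t) →
        ENNReal.ofReal ((1 - h₀) * s₀) * volume (A ∩ Ioo w₁ (w₁ + δ)) ≤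
        ENNReal.ofReal (LF hn P P' o l (w₁ + δ) (w₁ + δ) - LF hn P P' o l w₁ w₁ -
          (P (w₁ + δ) (w₁ + δ) - P w₁ w₁ - (r (P (w₁ + δ) (w₁ + δ)) - r (P w₁ w₁))))) :
    ∀ᵐ g : ℝ, g ∈ Gs P r P' Λ o → (∃ la t : ℕ → ℝ, Cfg hn P P' o l g la t ∧ Φ g la t) →
      1 < deriv (fun v => LF hn P P' o l v v) g →
      deriv (fun v => P v v) g * (1 - deriv r (P g g)) ≤
        h₀ * deriv (fun v => LF hn P P' o l v v) g := by
  have hPl := H.tgs.law ()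
  have hrl : ∀ᵐ Q : ℝ, DifferentiableAt ℝ r Q := H.rate.lip.ae_differentiableAt_real
  -- one index
  have key : ∀ ι : Eix n, Vs l n (fx ι.2.1) (fx ι.2.2.1) ι.1 → (0 : ℝ) < ι.2.2.2 → ∀ᵐ g : ℝ,
      g ∈ {g | g ∈ Gs P r P' Λ o ∩ Eg (LF hn P P' o) l n (fx ι.2.1) (fx ι.2.2.1) (epg n C ι.1)
          ι.2.2.2 ∧ Nogap (Gs P r P' Λ o) g ∧ DifferentiableAt ℝ r (P g g) ∧
          1 < deriv (fun v => LF hn P P' o l v v) g ∧
          ∃ la t : ℕ → ℝ, Cfg hn P P' o l g la t ∧ Φ g la t} →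
      deriv (fun v => P v v) g * (1 - deriv r (P g g)) ≤
        h₀ * deriv (fun v => LF hn P P' o l v v) g := by
    intro ι V hrho
    refine zcount (D := fun v => LF hn P P' o l v v) (P := fun v => P v v) (r := r)
      (G := Gs P r P' Λ o ∩ Eg (LF hn P P' o) l n (fx ι.2.1) (fx ι.2.2.1) (epg n C ι.1)
          ι.2.2.2)
      ((H.gs_meas o).inter (eg_meas (fun i hi hin => ll_law H hin) (ll_bd01 H l) (V.e0 hC).le))
      (fun g hg => hg.1) hh hh0 ?_ ?_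
    · rintro g ⟨⟨h1, h2⟩, -, h3, h4, la, t, h5, -⟩
      refine ⟨h2.1, h2.2.1, (aff_der (h5.aff l le_rfl (by omega))).differentiableAt, h4, ?_, h3⟩
      have h6 := aff_der (h5.aff (n - 1) (by omega) (by omega))
      rw [LF_lst] at h6
      exact h6.differentiableAt
    · rintro g ⟨h1, -, -, -, -⟩
      obtain ⟨ϱ, hϱ, h2⟩ := hI ι.1 (fx ι.2.1) (fx ι.2.2.1) ι.2.2.2 V hrho g h1
      refine ⟨ϱ, hϱ, fun δ hδ => ?_⟩
      filter_upwards [h2 δ hδ] with w₁ h3 k1 k2 k3 k4 k5 k6 s₀ hs₀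
      refine h3 k1 k2 k3 k4 k5 k6 _ s₀ hs₀ ?_
      rintro x ⟨⟨⟨a1, a2⟩, a3, a4, a5, a6⟩, a7⟩
      exact ⟨a2, a1, a3, gs_lt H a1 (by omega) hTop hF, a7, a6⟩
  have hall : ∀ᵐ g : ℝ, ∀ ι : Eix n, Vs l n (fx ι.2.1) (fx ι.2.2.1) ι.1 → (0 : ℝ) < ι.2.2.2 →
      g ∈ {g | g ∈ Gs P r P' Λ o ∩ Eg (LF hn P P' o) l n (fx ι.2.1) (fx ι.2.2.1) (epg n C ι.1)
          ι.2.2.2 ∧ Nogap (Gs P r P' Λ o) g ∧ DifferentiableAt ℝ r (P g g) ∧
          1 < deriv (fun v => LF hn P P' o l v v) g ∧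
          ∃ la t : ℕ → ℝ, Cfg hn P P' o l g la t ∧ Φ g la t} →
      deriv (fun v => P v v) g * (1 - deriv r (P g g)) ≤
        h₀ * deriv (fun v => LF hn P P' o l v v) g := by
    rw [ae_all_iff]
    intro ι
    by_cases h1 : Vs l n (fx ι.2.1) (fx ι.2.2.1) ι.1 ∧ (0 : ℝ) < ι.2.2.2
    · filter_upwards [key ι h1.1 h1.2] with g h2 _ _ h3
      exact h2 h3
    · exact Filter.Eventually.of_forall fun g h2 h3 => absurd ⟨h2, h3⟩ h1
  have hrat : ∀ᵐ g : ℝ, DifferentiableAt ℝ (dgP P) g → 0 < deriv (dgP P) g →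
      dgP P g ∉ {Q | ¬ DifferentiableAt ℝ r Q} :=
    Pool.STR.ae_notMem_of_null (dgP_mono hPl) (ae_iff.1 hrl)
  filter_upwards [hall, hrat, nogap_ae (H.gs_meas o)] with g h1 h2 h3 hg ⟨la, t, hcf, hΦ⟩ hs
  obtain ⟨α, Q, c, Fc⟩ := H.fac hTop hF hg
  have hg0 := Fc.g0
  have hg1 := Fc.g1
  obtain ⟨ι, V, hrho, hE⟩ := eg_ex hC hg0 hg1 (show l < n by omega) hcf.aff hcf.la1 hcf.t0 hcf.ti
  refine h1 ι V hrho ⟨⟨hg, hE⟩, h3 hg, ?_, hs, la, t, hcf, hΦ⟩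
  -- the rate
  have h4 := hcf.aff (n - 1) (by omega) (by omega)
  rw [LF_lst] at h4
  have hP1 : P g g < 1 := by
    have := gs_lt H hg (show n - 1 < n by omega) hTop hF
    rwa [LF_lst] at this
  have h5 := aff_der h4
  have h6 : HasDerivAt (dgP P) (la (n - 1) + t (n - 1)) g := by
    refine h5.congr_of_eventuallyEq ?_
    filter_upwards [Ioo_mem_nhds hg0 hg1] with v hv
    exact dgP_eq P hv.1.le hv.2.le
  have h7 := aff_one hPl hg0 hg1 hP1 h4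
  have h8 := h2 h6.differentiableAt (by rw [h6.deriv]; linarith)
  rw [dgP_eq P hg0.le hg1.le] at h8
  by_contra hcon
  exact h8 hcon

/-- **The windows of the count satisfy the conditions of the inequality of the zooms**, if `l` is
rough. -/
theorem cnt_A {l : ℕ} (hl : l < n) {lam T : ℕ → ℝ} {gap C rho b a₀ w₀ w₁ : ℝ} {δ : ℚ}
    (V : Vs l n lam T gap) (hC : 1 ≤ C) (hrho : 0 < rho) (B : Bse (lam l) (Kg n gap) b a₀ w₀ w₁)
    (h01 : w₀ < w₁) (hδa : w₁ + δ < a₀) (har : a₀ - w₀ < rho) {Ψ : Set ℝ → ℝ → Prop}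
    (hin : ∀ (A : Set ℝ) (σ : ℝ → ℝ) (s₀ : ℝ), 1 < s₀ → (∀ x ∈ A, w₁ < x → x < w₁ + δ →
      s₀ ≤ σ x ∧ LL hn P P' o (l + 1) x x < 1 ∧
      RgUp (LU (LF hn P P' o) l n T a₀ w₀ b (Kg n gap) C w₁) x (LL hn P P' o (l + 1) x x) (σ x) ∧
      DgLo (LL hn P P' o (l + 1)) x (LL hn P P' o (l + 1) x x) (σ x) ∧
      ContinuousAt (fun v => LL hn P P' o (l + 1) v v) x ∧ Nogap (Gs P r P' Λ o) x) → Ψ A s₀)
    (A : Set ℝ) (s₀ : ℝ) (hs₀ : 1 < s₀)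
    (hA : ∀ x ∈ A, x ∈ Eg (LF hn P P' o) l n lam T (epg n C gap) rho ∧
      x ∈ Gs P r P' Λ o ∧ Nogap (Gs P r P' Λ o) x ∧ LF hn P P' o l x x < 1 ∧
      s₀ ≤ deriv (fun v => LF hn P P' o l v v) x ∧
      ∃ la t : ℕ → ℝ, Cfg hn P P' o l x la t ∧ la l = 1) : Ψ A s₀ := by
  refine hin A (fun x => deriv (fun v => LF hn P P' o l v v) x) s₀ hs₀ fun x hx h1 h2 => ?_
  obtain ⟨k1, k2, k3, k4, k5, la, t, k6, k7⟩ := hA x hx
  have k8 := k6.aff l le_rfl hl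
  have k9 := aff_der k8
  rw [k7] at k9
  refine ⟨k5, k4, ?_, ?_, k9.continuousAt, k3⟩
  · rw [k9.deriv]
    exact lu_rg V hC hrho k1 k6.aff k7 B h01 h1 (by linarith) (by linarith) (by linarith)
  · rw [k9.deriv, ← k7]
    exact aff_dg k8

end Pool.ZFI
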