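import Pool.Agent.H77.Z4.Zw
import Pool.Agent.H82.ZL.Lu

/-!
# The numbers of an order in the number lemma

`ll_law`, `ll_bd`: the numbers of an order are thresholds with values in `[0, 1]`. `aff_der`,
`aff_dg`: the diagonal of an affine threshold. `lug_of`: the numbers of the path in the form of the
zooms. `zwd_of`: the numbers and the requests at two windows of `Eg`.
-/

set_option autoImplicit false

namespace Pool.ZFI

open MeasureTheory Set Filter Topology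
open Finset (range)
open Pool.Agent.H49.Ent Pool.Agent.H32.Dense Pool.STK Pool.KA Pool.KSAT Pool.K2S Pool.PB Pool.S6C
open Pool.GEN Pool.ONE Pool.EXW Pool.TOP Pool.ZCL Pool.ZLC Pool.ZFN Pool.ZCO Pool.PKG Pool.CHT
open Pool.Z4 Pool.ZL
open Pool.LEV (Law)

section

variable {P : ℝ → ℝ → ℝ} {g la t : ℝ}

/-- The diagonal of an affine threshold has a derivative. -/
theorem aff_der (h : AffA P g la t) : HasDerivAt (fun v => P v v) (la + t) g := by
  rw [hasDerivAt_iff_isLittleO, Asymptotics.isLittleO_iff]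
  intro c hc
  obtain ⟨r₁, hr₁, h1⟩ := h c hc
  refine Metric.eventually_nhds_iff.2 ⟨r₁, hr₁, fun v hv => ?_⟩
  rw [Real.dist_eq] at hv
  rcases (abs_nonneg (v - g)).eq_or_lt with h2 | h2
  · have h3 : v = g := by
      have := abs_eq_zero.1 h2.symm
      linarith
    rw [h3]
    simp
  · obtain ⟨a1, a2⟩ := abs_le.1 (le_refl |v - g|)
    have h3 := h1 |v - g| h2 hv v v (by linarith) le_rfl (by linarith)
    simp only [smul_eq_mul, Real.norm_eq_abs]
    have e1 : P v v - P g g - (v - g) * (la + t) =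
        P v v - (P g g + la * (v - g) + t * (v - g)) := by ring
    rw [e1]
    exact h3

theorem aff_dg (h : AffA P g la t) : DgLo P g (P g g) (la + t) := by
  intro e he
  obtain ⟨r₁, hr₁, h1⟩ := h e he
  refine ⟨r₁, hr₁, fun r hr hr' v h2 h3 => ?_⟩
  have h4 := (abs_le.1 (h1 r hr hr' v v h2 le_rfl h3)).1
  have e1 : (la + t) * (v - g) = la * (v - g) + t * (v - g) := by ring
  rw [e1]
  linarith

/-- The slope of the diagonal is at least one. -/
theorem aff_one (hP : Law P) (hg0 : 0 < g) (hg1 : g < 1) (h1 : P g g < 1) (h : AffA P g la t) :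
    1 ≤ la + t := by
  refine le_of_forall_pos_le_add fun e he => ?_
  obtain ⟨r₁, hr₁, h2⟩ := h e he
  obtain ⟨r, hr⟩ : ∃ r, r = min (r₁ / 2) (min (1 - g) (1 - P g g)) := ⟨_, rfl⟩
  have hr0 : 0 < r := by
    rw [hr]
    exact lt_min (by linarith) (lt_min (by linarith) (by linarith))
  have hr1 : r ≤ r₁ / 2 := by rw [hr]; exact min_le_left _ _
  have hr2 : r ≤ 1 - g := by rw [hr]; exact (min_le_right _ _).trans (min_le_left _ _)
  have hr3 : r ≤ 1 - P g g := by rw [hr]; exact (min_le_right _ _).trans (min_le_right _ _)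
  have h3 := (abs_le.1 (h2 r hr0 (by linarith) (g + r) (g + r) (by linarith) le_rfl le_rfl)).2
  have h4 := hP.slope g g r hg0.le le_rfl hr0.le (by linarith)
  rw [min_eq_right (by linarith)] at h4
  have h5 := hP.mono_w (g + r) g (g + r) hg0.le (by linarith) le_rfl (by linarith)
  rw [add_sub_cancel_left] at h3
  have h6 : r * 1 ≤ r * (la + t + e) := by
    have e1 : r * (la + t + e) = la * r + t * r + e * r := by ring
    rw [e1]
    linarith
  exact le_of_mul_le_mul_left h6 hr0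

end

variable {n : ℕ} {hn : 2 ≤ n} {S : PCl n} {P : ℝ → ℝ → ℝ} {r : ℝ → ℝ}
  {P' : ℕ → List (Fin n) × Fin n → ℝ → ℝ → ℝ} {Λ : Finset (Fin n) → Fin n → ℝ → ℝ → ℝ}
  {o : Od n}

/-- The numbers of an order, from `0`. -/
noncomputable def LF (hn : 2 ≤ n) (P : ℝ → ℝ → ℝ) (P' : ℕ → List (Fin n) × Fin n → ℝ → ℝ → ℝ)
    (o : Od n) (i : ℕ) : ℝ → ℝ → ℝ := LL hn P P' o (i + 1)

theorem ll_law (H : Pk hn S P r P' Λ) {i : ℕ} (hi : i < n) : Law (LF hn P P' o i) := by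
  unfold LF
  rcases Nat.lt_or_ge i (n - 1) with h | h
  · rw [LL_low (by omega) (by omega)]
    exact (H.cht o.2).law _
  · have : i = n - 1 := by omega
    rw [this, LL_lst]
    exact H.tgs.law ()

theorem ll_bd (H : Pk hn S P r P' Λ) {i : ℕ} (hi : i < n) {a w : ℝ} (h0 : 0 ≤ w) (h1 : w ≤ a)
    (h2 : a ≤ 1) : a ≤ LF hn P P' o i a w ∧ LF hn P P' o i a w ≤ 1 := by
  unfold LF
  rcases Nat.lt_or_ge i (n - 1) with h | h
  · rw [LL_low (by omega) (by omega)]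
    exact ⟨(H.cht o.2).low _ a w h0 h1 h2, (H.cht o.2).up _ a w h0 h1 h2⟩
  · have : i = n - 1 := by omega
    rw [this, LL_lst]
    exact ⟨H.tgs.low () a w h0 h1 h2, H.tgs.up () a w h0 h1 h2⟩

theorem ll_bd01 (H : Pk hn S P r P' Λ) (l : ℕ) : Bd01 (LF hn P P' o) l n :=
  fun i _ hin a w h0 h1 h2 => ⟨by
    have := (ll_bd (o := o) H hin h0 h1 h2).1
    linarith, (ll_bd H hin h0 h1 h2).2⟩

/-- **The numbers of the path**, in the form of the zooms. -/
theorem lug_of {L : ℕ → ℝ → ℝ → ℝ} {l : ℕ} {T : ℕ → ℝ} {C K b a₀ w₀ w₁ la : ℝ} {δ : ℚ}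
    (hb : Bd01 L l n) (hK : 0 ≤ K) (hl : l < n) (hC : 0 ≤ C) (B : Bse la K b a₀ w₀ w₁)
    (hδ : w₁ + δ ≤ a₀) :
    LUG w₁ δ (L l) (fun a w => C * psi L l n T a₀ w₀ b K a w) (LU L l n T a₀ w₀ b K C w₁) := by
  intro r s k hs hsr hrδ hk hkr
  have h0 := B.h0
  have h01 := B.h01
  have ha1 := B.a1
  have hs' : (0 : ℝ) < s := by exact_mod_cast hs
  have hk' : (0 : ℝ) ≤ k := by exact_mod_cast hk
  have hkr' : (k : ℝ) ≤ r := by exact_mod_cast hkr
  have hrδ' : (r : ℝ) ≤ δ := by exact_mod_cast hrδ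
  have e1 : min (w₁ + (s : ℝ)) (w₁ + (k : ℝ)) = w₁ + ((min s k : ℚ) : ℝ) := by
    rw [min_add_add_left, Rat.cast_min]
  have N : Bn a₀ w₀ (w₁ + (k : ℝ)) (min (w₁ + (s : ℝ)) (w₁ + (k : ℝ))) :=
    bn_min h0.le h01 (by linarith) (aT := w₁ + k) (by linarith) ha1.le (by linarith) le_rfl
  have h2 := le_LU (T := T) (b := b) hb hK hl hC h0.le h01 (wT := w₁ + s) (aT := w₁ + r)
    (by linarith) (by linarith) ha1.le (a := w₁ + k) (by linarith) (by linarith)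
  have h3 := psi_nn (T := T) (b := b) hb hK hl N
  have h4 := hb l le_rfl hl (w₁ + (k : ℝ)) (min (w₁ + (s : ℝ)) (w₁ + (k : ℝ))) (N.w0.trans N.ww)
    N.wa (N.aa.trans N.a1)
  rw [e1] at h2 h3 h4
  refine ⟨mul_nonneg hC h3, h4.1, ?_⟩
  linarith

/-- **The numbers and the requests at two windows** of the set. -/
theorem zwd_of (H : Pk hn S P r P' Λ) {l : ℕ} (hl1 : 1 ≤ l) (hl : l < n - 1) {lam T : ℕ → ℝ}
    {gap C rho b a₀ w₀ w₁ : ℝ} {δ : ℚ} (V : Vs l n lam T gap) (hC : 1 ≤ C) (hδ : 0 < δ)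
    (B : Bse (lam l) (Kg n gap) b a₀ w₀ w₁) (hδa : w₁ + δ ≤ a₀) (hrho : a₀ - w₀ < rho)
    (h1 : w₁ ∈ Gs P r P' Λ o) (h1E : w₁ ∈ Eg (LF hn P P' o) l n lam T (epg n C gap) rho)
    (h2 : w₁ + δ ∈ Gs P r P' Λ o)
    (h2E : w₁ + δ ∈ Eg (LF hn P P' o) l n lam T (epg n C gap) rho)
    (hR : ∀ ε : ℝ, 0 < ε → ∃ v ∈ Gs P r P' Λ o, w₁ < v ∧ v < w₁ + ε) {M : MDat} {Vd : Rq → Prop}
    {β : ℕ → ℝ → ℝ → ℝ} (hβ : ∀ i ≤ n - 1, β i = LF hn P P' o i) (hM : MOk n M Vd)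
    (hnum : ∀ w : ℝ, w = w₁ ∨ w = w₁ + δ → ∀ i ≤ n - 1, β i w w + M.E + 2 * M.ϱ ≤ 1)
    (hV : VdG w₁ δ M (fun a w => C * psi (LF hn P P' o) l n T a₀ w₀ b (Kg n gap) a w) Vd) :
    Zwd hn P r P' Λ o l w₁ δ M Vd β
      (fun a w => C * psi (LF hn P P' o) l n T a₀ w₀ b (Kg n gap) a w)
      (LU (LF hn P P' o) l n T a₀ w₀ b (Kg n gap) C w₁) := by
  have hδ' : (0 : ℝ) < δ := by exact_mod_cast hδ
  have h01 := B.h01
  have hC0 : 0 ≤ C := by linarith
  refine ⟨hl1, hl, hδ, h1, hR, h2, fun i hi a w => by rw [hβ i hi]; rfl, hM, hnum, hV,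
    ⟨?_, ?_⟩, ?_, fun ε hε => ?_⟩
  · rw [psi_diag V hC (ll_bd01 H l) h1E B le_rfl B.h1.le (by linarith) (by linarith [B.h1]),
      mul_zero]
  · rw [psi_diag V hC (ll_bd01 H l) h2E B (by linarith) hδa (by linarith) (by linarith [B.h1]),
      mul_zero]
  · rw [hβ l hl.le]
    exact lug_of (ll_bd01 H l) V.K0.le (by omega) hC0 B hδa
  · obtain ⟨d, hd, h3⟩ := lu_near V hC h1E B (by linarith) (by linarith [B.h1]) hε
    exact ⟨d, hd, fun a w h4 h5 h6 => h3 a w h4.le h5 h6⟩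

end Pool.ZFI
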