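import Pool.Agent.H82.ZF.Fin
import Pool.Agent.H60.GEN.PlayE
import Pool.Agent.H39.GEN.DichT

/-!
# The slope of the target, for rough and static coordinates

`CfgS`: the coordinate `l` is rough and the coordinates above are static. `cfgS_cfg`: this is a
configuration of the count. `nore_h`: the slope of the target at the windows of the rows with deficit
more than `h`.
-/

set_option autoImplicit false

namespace Pool.ZFI

open MeasureTheory Set Filter Topology
open Finset (range)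
open Pool.Agent.H49.Ent Pool.Agent.H32.Dense Pool.STK Pool.KA Pool.KSAT Pool.K2S Pool.PB Pool.S6C
open Pool.GEN Pool.ONE Pool.EXW Pool.TOP Pool.ZCL Pool.ZLC Pool.ZFN Pool.ZCO Pool.PKG Pool.CHT
open Pool.Z4 Pool.ZL
open Pool.LBT (ThrOf)
open Pool.LEV (Law)
open Pool.ALL (RateOf)
open Pool.STR (StaAt StaD affB_of)

section

variable {P : ℝ → ℝ → ℝ} {g : ℝ}

/-- The diagonal is at least the line. -/
theorem dgLo_of (hd : DifferentiableAt ℝ (fun v => P v v) g) :
    DgLo P g (P g g) (deriv (fun v => P v v) g) := by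
  intro e he
  obtain ⟨r₁, hr₁, h1⟩ := affB_of hd (M := 1) one_pos he
  refine ⟨r₁, hr₁, fun r hr hr' v h2 h3 => ?_⟩
  have h4 := (abs_le.1 (h1 r hr hr' v (by rw [abs_le]; constructor <;> linarith))).1
  linarith

/-- **Static thresholds are affine.** -/
theorem aff_sta (hP : Law P) (hg0 : 0 < g) (hg1 : g < 1)
    (hd : DifferentiableAt ℝ (fun v => P v v) g) (hS : StaAt P g) :
    AffA P g (deriv (fun v => P v v) g) 0 := by
  intro e he
  obtain ⟨r₁, hr₁, h1⟩ := hS (e / 2) (by linarith)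
  obtain ⟨r₂, hr₂, h2⟩ := affB_of hd (M := 1) (e := e / 2) one_pos (by linarith)
  refine ⟨min (min r₁ r₂) (min g (1 - g)), lt_min (lt_min hr₁ hr₂) (lt_min hg0 (by linarith)),
    fun r hr hr' a w hw hwa ha => ?_⟩
  have m1 : r < r₁ := (hr'.trans_le (min_le_left _ _)).trans_le (min_le_left _ _)
  have m2 : r < r₂ := (hr'.trans_le (min_le_left _ _)).trans_le (min_le_right _ _)
  have m3 : r < g := (hr'.trans_le (min_le_right _ _)).trans_le (min_le_left _ _)
  have m4 : r < 1 - g := (hr'.trans_le (min_le_right _ _)).trans_le (min_le_right _ _)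
  have h3 := h1 r hr m1 a w (by linarith) hwa (by linarith)
  have h4 := abs_le.1 (h2 r hr m2 a (by rw [abs_le]; constructor <;> linarith))
  have h5 := hP.mono_w a w a (by linarith) hwa le_rfl (by linarith)
  rw [zero_mul, add_zero, abs_le]
  constructor <;> linarith [h4.1, h4.2]

end

variable {n : ℕ}

/-- **The coordinate `l` is rough and the coordinates above are static.** -/
structure CfgS (hn : 2 ≤ n) (P : ℝ → ℝ → ℝ) (P' : ℕ → List (Fin n) × Fin n → ℝ → ℝ → ℝ)
    (o : Od n) (l : ℕ) (g : ℝ) : Prop where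
  l1 : 1 ≤ l
  ln : l < n - 1
  dif : ∀ i < n, DifferentiableAt ℝ (fun v => LL hn P P' o (i + 1) v v) g
  lt : ∀ i < n, LL hn P P' o (i + 1) g g < 1
  s1 : 1 < deriv (fun v => LL hn P P' o (l + 1) v v) g
  up : RgUp (LL hn P P' o (l + 1)) g (LL hn P P' o (l + 1) g g)
    (deriv (fun v => LL hn P P' o (l + 1) v v) g)
  sta : ∀ i, l < i → i < n → StaAt (LL hn P P' o (i + 1)) g

variable {hn : 2 ≤ n} {S : PCl n} {P : ℝ → ℝ → ℝ} {r : ℝ → ℝ}
  {P' : ℕ → List (Fin n) × Fin n → ℝ → ℝ → ℝ} {Λ : Finset (Fin n) → Fin n → ℝ → ℝ → ℝ}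
  {PB : ℕ → List (Fin n) × Fin n → ℝ → ℝ → ℝ}

/-- **This is a configuration of the count.** -/
theorem cfgS_cfg (H : Pk hn S P r P' Λ) {o : Od n} {l : ℕ} {g : ℝ} (hg0 : 0 < g) (hg1 : g < 1)
    (hc : CfgS hn P P' o l g) : ∃ la t : ℕ → ℝ, Cfg hn P P' o l g la t ∧ la l = 1 := by
  have hln := hc.ln
  refine ⟨fun i => if i = l then 1 else deriv (fun v => LL hn P P' o (i + 1) v v) g,
    fun i => if i = l then deriv (fun v => LL hn P P' o (l + 1) v v) g - 1 else 0,
    ⟨fun i hi hin => ?_, ?_, ?_, fun i hi hin => ?_⟩, ?_⟩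
  · rcases hi.eq_or_lt with h1 | h1
    · subst h1
      simp only [if_true]
      exact aff_rg (ll_law H (by omega)) hg0 hg1 (hc.lt _ (by omega)) hc.up
        (dgLo_of (hc.dif _ (by omega)))
    · simp only [show i ≠ l by omega, if_false]
      exact aff_sta (ll_law H hin) hg0 hg1 (hc.dif i hin) (hc.sta i h1 hin)
  · simp
  · simp only [if_true]
    linarith [hc.s1]
  · simp only [show i ≠ l by omega, if_true, if_false]
    linarith [hc.s1]
  · simp

/-- **The slope of the target** at the windows of the rows with deficit more than `h`, if the last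
coordinate which is not static is rough. -/
theorem nore_h (H : PkT hn S P r P' Λ PB) (hTop : TopS n) (hF1 : FZX 1) (hF : FZX (n - 1))
    (hW : ∀ k, 2 ≤ k → k < n → RW k) {C : ℝ} (hC1 : 1 ≤ C)
    (hMev : ∀ (o : Od n) (l : ℕ), 1 ≤ l → l < n - 1 → MevH hn S P r P' Λ o l C)
    {h : ℝ} (hh0 : 0 ≤ h) (hh : h < 1)
    (hM : ∀ (al : ℝ) (g₀ : ℝ → ℝ) (N : ℚ → ℚ → ℝ), 0 < al → (∀ ε : ℝ, 0 < ε → 0 < g₀ ε) →
      ∀ (S' : PCl n) (P : ℝ → ℝ → ℝ) (r : ℝ → ℝ), ClX (fun _ => 0) (fun _ => 1) al g₀ 2 0 N S' →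
      ThrOf (tgs (lst hn)) S' (fun _ => P) → RateOf S' (lst hn) r → ∀ E, RgFull P r h E)
    (o : Od n) (l : ℕ) :
    ∀ᵐ g : ℝ, RwH H hTop hF h o g → 1 < deriv (fun a => P a a) g → CfgS hn P P' o l g →
      deriv (fun a => P a a) g * (1 - deriv r (P g g)) ≤
        h * deriv (fun a => LL hn P P' o (l + 1) a a) g := by
  by_cases hl : 1 ≤ l ∧ l < n - 1
  · obtain ⟨al, g₀, s, d, e₀, K₀, N, hal, hg₀, hC⟩ := H.cl
    have h1 := nore_cnt H.toPk hTop hF1 hF hW hal hg₀ hC hl.1 hl.2 hC1 (hMev o l hl.1 hl.2) hh0 hh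
      (fun w₁ _ S' P r h1 h2 h3 E => hM al _ _ hal (fun ε hε => lt_min (hg₀ _ (by linarith))
        one_pos) S' P r h1 h2 h3 E)
    filter_upwards [h1] with g h2 hR _ hcf
    exact h2 hR.rwd.mem (cfgS_cfg H.toPk hR.rwd.g0 hR.rwd.g1 hcf)
  · exact Filter.Eventually.of_forall fun g _ _ hcf => absurd ⟨hcf.l1, hcf.ln⟩ hl

end Pool.ZFI
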